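import Pool.Agent.K7.H84.GG.Stm

/-!
Project GG, job S2: the hyperplanes of the principal truncation inside a hyperplane.
-/

set_option autoImplicit false

namespace Pool.Agent.K7.H72.GGS2

open Finset DC813 Pool.Agent.K7.H84.GG

section
variable {α : Type} [DecidableEq α] {r : Finset α → ℕ}

theorem ext_le (hr : IsRk r) {A B : Finset α} (h : A ⊆ B) (L : Finset α) :
    r (B ∪ L) + r A ≤ r (A ∪ L) + r B := by
  have h1 := hr.submod (A ∪ L) B
  have h2 : A ∪ L ∪ B = B ∪ L := by
    ext x
    simp only [mem_union]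
    constructor
    · rintro ((h3 | h3) | h3)
      · exact Or.inl (h h3)
      · exact Or.inr h3
      · exact Or.inl h3
    · rintro (h3 | h3)
      · exact Or.inr h3
      · exact Or.inl (Or.inr h3)
  have h3 : r A ≤ r ((A ∪ L) ∩ B) := hr.mono _ _ (subset_inter subset_union_left h)
  rw [h2] at h1
  omega

theorem ins_le (hr : IsRk r) {A B : Finset α} (h : A ⊆ B) (e : α) :
    r (insert e B) + r A ≤ r (insert e A) + r B := by
  have h1 := ext_le hr h {e}
  rwa [union_comm B, union_comm A, ← insert_eq, ← insert_eq] at h1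

theorem tr_ne {L A : Finset α} (h : r (A ∪ L) ≠ r A) : tr r L A = r A := by
  unfold tr; rw [if_neg h]; omega

theorem tr_eq {L A : Finset α} (h : r (A ∪ L) = r A) : tr r L A = r A - 1 := by
  unfold tr; rw [if_pos h]

theorem tr_le (L A : Finset α) : tr r L A ≤ r A := Nat.sub_le _ _

theorem mu_congr' (r1 r2 : Finset α → ℕ) (E : Finset α) (h0 : r1 E = r2 E)
    (h : ∀ X ⊆ E, (r1 X = r1 E ↔ r2 X = r2 E)) : mu r1 E = mu r2 E := by
  unfold mu
  rw [h0]
  congr 1
  refine Finset.sum_congr (Finset.filter_congr fun X hX => ?_) fun _ _ => rfl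
  rw [← h0, h X (mem_powerset.1 hX), h0]

theorem mem_fl {E F : Finset α} : F ∈ fl r E ↔ F ⊆ E ∧ ∀ e ∈ E, e ∉ F → r F < r (insert e F) := by
  unfold fl; rw [mem_filter, mem_powerset]

theorem mem_hy {E H : Finset α} {p : α} :
    H ∈ hy r E p ↔ H ∈ fl r E ∧ r H + 1 = r E ∧ p ∉ H := by
  unfold hy; rw [mem_filter]

theorem mem_T1 {E L G : Finset α} : G ∈ T1 r E L ↔ G ∈ fl r E ∧ r G + 2 = r E ∧ r (G ∪ L) = r E := by
  unfold T1; rw [mem_filter]

variable {E L H : Finset α} {p : α}

/-- facts on a hyperplane avoiding `p` -/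
theorem facts (hc : Ctx r E L p) (hH : H ∈ hy r E p) : H ⊆ E ∧ L ⊆ E ∧ r (insert p H) = r E ∧
    r (H ∪ L) = r E ∧ r H + 1 = r E ∧ p ∉ H ∧ 2 ≤ r E := by
  obtain ⟨hr, lp, hp, hL, hL2, hpL⟩ := hc
  obtain ⟨h1, h2, h3⟩ := mem_hy.1 hH
  obtain ⟨h4, h5⟩ := mem_fl.1 h1
  have hLE : L ⊆ E := (mem_fl.1 hL).1
  have h6 := h5 p hp h3
  have h7 : r (insert p H) ≤ r E := hr.mono _ _ (insert_subset hp h4)
  have h8 : r (insert p H) ≤ r (H ∪ L) := hr.mono _ _ (by
    intro x hx
    rcases mem_insert.1 hx with rfl | hx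
    · exact mem_union_right _ hpL
    · exact mem_union_left _ hx)
  have h9 : r (H ∪ L) ≤ r E := hr.mono _ _ (union_subset h4 hLE)
  have h10 := hr.mono _ _ hLE
  refine ⟨h4, hLE, by omega, by omega, h2, h3, by omega⟩

theorem trp (hc : Ctx r E L p) : tr r L {p} = 1 := by
  obtain ⟨hr, lp, hp, hL, hL2, hpL⟩ := hc
  have h1 := lp p hp
  have h2 : r {p} ≤ 1 := by
    have := hr.insert_le ∅ p
    rw [hr.empty] at this
    simpa using this
  have h3 : ({p} : Finset α) ∪ L = L := by
    rw [union_eq_right, singleton_subset_iff]; exact hpL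
  rw [tr_ne (by rw [h3]; omega)]
  omega

theorem trH (hc : Ctx r E L p) (hH : H ∈ hy r E p) : tr r L H = r H := by
  obtain ⟨-, -, -, h4, h5, -, -⟩ := facts hc hH
  exact tr_ne (by omega)

theorem trpH (hc : Ctx r E L p) (hH : H ∈ hy r E p) : tr r L (insert p H) = r H := by
  obtain ⟨h1, h2, h3, h4, h5, -, -⟩ := facts hc hH
  have h6 : insert p H ∪ L = H ∪ L := by
    rw [insert_union]
    exact insert_eq_self.2 (mem_union_right _ hc.hpL)
  rw [tr_eq (by rw [h6]; omega)]
  omega

theorem muH (hc : Ctx r E L p) (hH : H ∈ hy r E p) : mu (tr r L) H = mu r H := by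
  have hf := facts hc hH
  refine mu_congr' _ _ _ (trH hc hH) fun X hX => ?_
  rw [trH hc hH]
  have h1 := ext_le hc.hr hX L
  have h2 := hc.hr.mono _ _ hX
  constructor
  · intro h
    have := tr_le (r := r) L X
    omega
  · intro h
    rw [tr_ne (by omega), h]

theorem trG {G : Finset α} (hc : Ctx r E L p) (hG : G ∈ T1 r E L) {X : Finset α} (hX : X ⊆ G) :
    tr r L X = r X := by
  obtain ⟨h1, h2, h3⟩ := mem_T1.1 hG
  have := ext_le hc.hr hX L
  exact tr_ne (by omega)

theorem hyT1 (hc : Ctx r E L p) (hH : H ∈ hy r E p) :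
    hy (tr r L) (insert p H) p = (T1 r E L).filter (fun G => G ⊆ H) := by
  obtain ⟨f1, f2, f3, f4, f5, f6, f7⟩ := facts hc hH
  have hr := hc.hr
  ext G
  rw [mem_hy, mem_fl, mem_filter, mem_T1, mem_fl, trpH hc hH]
  constructor
  · rintro ⟨⟨h1, h2⟩, h3, h4⟩
    have hGH : G ⊆ H := by
      intro x hx
      rcases mem_insert.1 (h1 hx) with rfl | h
      · exact absurd hx h4
      · exact h
    have h5 := h2 p (mem_insert_self _ _) h4
    have hins : insert p G ∪ L = G ∪ L := by
      rw [insert_union]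
      exact insert_eq_self.2 (mem_union_right _ hc.hpL)
    have hsub : r (insert p G) ≤ r (G ∪ L) := hr.mono _ _ (by
      rw [← hins]; exact subset_union_left)
    have hsub0 : r G ≤ r (insert p G) := hr.mono _ _ (subset_insert _ _)
    have hne : r (G ∪ L) ≠ r G := by
      intro h
      have e1 : r (insert p G) = r G := by omega
      rw [tr_eq h, tr_eq (by rw [hins]; omega), e1] at h5
      exact lt_irrefl _ h5
    rw [tr_ne hne] at h3 h5
    have h6 := hr.insert_le G p
    have hne2 : r (insert p G ∪ L) ≠ r (insert p G) := by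
      intro h
      rw [tr_eq h] at h5
      omega
    have h7 : r (G ∪ L) ≤ r E := hr.mono _ _ (union_subset (hGH.trans f1) f2)
    rw [hins] at hne2
    have h8 := tr_le (r := r) L (insert p G)
    refine ⟨⟨⟨hGH.trans f1, ?_⟩, by omega, by omega⟩, hGH⟩
    intro e he heG
    by_cases heH : e ∈ H
    · have h9 := h2 e (mem_insert_of_mem heH) heG
      rw [tr_ne hne] at h9
      exact lt_of_lt_of_le h9 (tr_le _ _)
    · have h9 := (mem_fl.1 (mem_hy.1 hH).1).2 e he heH
      have h10 := ins_le hr hGH e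
      omega
  · rintro ⟨⟨⟨h1, h2⟩, h3, h4⟩, h5⟩
    have hne : r (G ∪ L) ≠ r G := by omega
    have hpG : p ∉ G := fun h => f6 (h5 h)
    refine ⟨⟨h5.trans (subset_insert _ _), ?_⟩, by rw [tr_ne hne]; omega, hpG⟩
    intro e he heG
    have heE : e ∈ E := by
      rcases mem_insert.1 he with rfl | h
      · exact hc.hp
      · exact f1 h
    have h6 := h2 e heE heG
    have h7 := hr.insert_le G e
    have h8 : r (G ∪ L) ≤ r (insert e G ∪ L) :=
      hr.mono _ _ (union_subset_union_left (subset_insert _ _))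
    rw [tr_ne hne, tr_ne (by omega)]
    exact h6

theorem conp (hW : StTR) (hc : Ctx r E L p) (X : Finset α) :
    con (tr r L) {p} X + 1 = tr r L (insert p X) := by
  have hr'' : IsRk (tr r L) := hW α r L hc.hr (by rw [hc.hL2]; norm_num)
  unfold con
  have h1 : X ∪ {p} = insert p X := by rw [union_comm, ← insert_eq]
  have h2 : tr r L {p} ≤ tr r L (insert p X) := hr''.mono _ _ (by
    rw [singleton_subset_iff]; exact mem_insert_self _ _)
  rw [h1, trp hc] at *
  omega

end

/-- JOB S2, first part -/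
theorem t (hW : StWeis) (hT : StTR) : StS2 := by
  intro α _ r E L p hc H hH
  have hr'' : IsRk (tr r L) := hT α r L hc.hr (by rw [hc.hL2]; norm_num)
  obtain ⟨f1, f2, f3, f4, f5, f6, f7⟩ := facts hc hH
  have h1 := hW α (tr r L) (insert p H) p hr'' (mem_insert_self _ _) (by rw [trp hc]; norm_num)
  rw [hyT1 hc hH] at h1
  have h2 : ∑ G ∈ (T1 r E L).filter (fun G => G ⊆ H), mu (tr r L) G =
      ∑ G ∈ (T1 r E L).filter (fun G => G ⊆ H), mu r G := by
    refine Finset.sum_congr rfl fun G hG => ?_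
    have hG' := (mem_filter.1 hG).1
    refine mu_congr' _ _ _ (trG hc hG' subset_rfl) fun X hX => ?_
    rw [trG hc hG' hX, trG hc hG' subset_rfl]
  have h3 := DC813.A1.mu_rec (tr r L) (con (tr r L) {p}) (insert p H) p (mem_insert_self _ _)
    (by rw [erase_insert f6, trH hc hH, trpH hc hH])
    (fun X _ => conp hT hc X)
  rw [erase_insert f6, muH hc hH] at h3
  rw [← h2, h1, h3]

/-- JOB S2, second part -/
theorem tb (hT : StTR) : StS2b := by
  intro α _ r E L p hc H hH hdis
  have hr'' : IsRk (tr r L) := hT α r L hc.hr (by rw [hc.hL2]; norm_num)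
  obtain ⟨f1, f2, f3, f4, f5, f6, f7⟩ := facts hc hH
  rw [not_disjoint_iff] at hdis
  obtain ⟨y, hyH, hyL⟩ := hdis
  have hyp : tr r L (insert y {p}) = 1 := by
    have h1 : insert y ({p} : Finset α) ∪ L = L := by
      rw [union_eq_right]
      intro x hx
      rw [mem_insert, mem_singleton] at hx
      rcases hx with rfl | rfl
      · exact hyL
      · exact hc.hpL
    have h2 : tr r L {p} ≤ tr r L (insert y {p}) := hr''.mono _ _ (subset_insert _ _)
    rw [trp hc] at h2
    have h3 : r (insert y ({p} : Finset α)) ≤ 2 := by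
      rw [← hc.hL2]
      exact hc.hr.mono _ _ (by rw [← h1]; exact subset_union_left)
    by_cases h4 : r (insert y ({p} : Finset α) ∪ L) = r (insert y ({p} : Finset α))
    · rw [tr_eq h4] at h2 ⊢
      omega
    · rw [tr_ne h4] at h2 ⊢
      rw [h1, hc.hL2] at h4
      omega
  refine (DC813.A1.mu_loop (con (tr r L) {p}) H y hyH fun X hX => ?_).1
  have h1 := conp hT hc (insert y X)
  have h2 := conp hT hc X
  have h3 := ins_le hr'' (A := {p}) (B := insert p X) (by
    rw [singleton_subset_iff]; exact mem_insert_self _ _) y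
  have h4 : tr r L (insert p X) ≤ tr r L (insert y (insert p X)) :=
    hr''.mono _ _ (subset_insert _ _)
  rw [hyp, trp hc] at h3
  rw [insert_comm] at h1
  omega

end Pool.Agent.K7.H72.GGS2
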